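import Pool.Agent.Run7.h641.MK.Iface

/-!
Pieces TR, PA, VI of helper641's project on the multiplicity of Markov numbers.
-/

set_option autoImplicit false

namespace Pool.Agent.Run7.h410.MK

open Pool.Agent.Run7.h641.MK

theorem t_TR : S_TR := by
  intro P h0 hs
  have key : ∀ n : ℕ, ∀ a b c d : ℤ, 0 ≤ a → 0 ≤ b → 0 ≤ c → 0 ≤ d → a * d - b * c = 1 →
      a + b + c + d ≤ n → P (a, b) (c, d) := by
    intro n
    induction n with
    | zero =>
      intro a b c d ha hb hc hd h hn
      exfalso
      have h1 : a = 0 := by push_cast at hn; omega
      have h2 : b = 0 := by push_cast at hn; omega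
      subst h1; subst h2
      simp at h
    | succ n ih =>
      intro a b c d ha hb hc hd h hn
      push_cast at hn
      have ha1 : 1 ≤ a := by
        by_contra hh
        have : a = 0 := by omega
        subst this
        nlinarith
      have hd1 : 1 ≤ d := by
        by_contra hh
        have : d = 0 := by omega
        subst this
        nlinarith
      by_cases h1 : c ≤ a ∧ d ≤ b
      · have := ih (a - c) (b - d) c d (by omega) (by omega) hc hd (by nlinarith) (by omega)
        have h2 := (hs (a - c, b - d) (c, d) ⟨⟨by simpa using h1.1, by simpa using h1.2⟩, ⟨hc, hd⟩,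
          by simp only [det]; nlinarith⟩ this).2
        simpa using h2
      · by_cases h2 : a ≤ c ∧ b ≤ d
        · have := ih a b (c - a) (d - b) ha hb (by omega) (by omega) (by nlinarith) (by omega)
          have h2 := (hs (a, b) (c - a, d - b) ⟨⟨ha, hb⟩, ⟨by simpa using h2.1, by simpa using h2.2⟩,
            by simp only [det]; nlinarith⟩ this).1
          simpa using h2
        · by_cases h3 : c < a
          · have h4 : b < d := by
              by_contra hh
              exact h1 ⟨by omega, by omega⟩
            have h5 : b + c ≤ 0 := by nlinarith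
            have hb0 : b = 0 := by omega
            have hc0 : c = 0 := by omega
            subst hb0; subst hc0
            have h6 : a * d = 1 := by simpa using h
            have ha' : a = 1 := by nlinarith
            have hd' : d = 1 := by nlinarith
            subst ha'; subst hd'
            exact h0
          · exfalso
            have h4 : d < b := by
              by_contra hh
              exact h2 ⟨by omega, by omega⟩
            have h6 : a < c := by
              rcases lt_or_eq_of_le (not_lt.1 h3) with h7 | h7
              · exact h7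
              · exact absurd ⟨h7.ge, h4.le⟩ h1
            nlinarith
  intro u v huv
  obtain ⟨⟨h1, h2⟩, ⟨h3, h4⟩, h5⟩ := huv
  have := key (u.1 + u.2 + v.1 + v.2).toNat u.1 u.2 v.1 v.2 h1 h2 h3 h4 h5 (by omega)
  simpa using this

theorem t_PA : S_PA := by
  constructor
  · have key : ∀ n : ℕ, ∀ p q : ℤ, 1 ≤ p → 1 ≤ q → IsCoprime p q → p + q ≤ n →
        ∃ a b c d : ℤ, 0 ≤ a ∧ 0 ≤ b ∧ 0 ≤ c ∧ 0 ≤ d ∧ a * d - b * c = 1 ∧ a + c = p ∧ b + d = q := by
      intro n
      induction n with
      | zero =>
        intro p q hp hq _ hn
        exfalso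
        push_cast at hn
        omega
      | succ n ih =>
        intro p q hp hq hco hn
        push_cast at hn
        rcases lt_trichotomy p q with h | h | h
        · have hco' : IsCoprime p (q - p) := by
            have := hco.add_mul_left_right (-1)
            simpa [sub_eq_add_neg] using this
          obtain ⟨a, b, c, d, ha, hb, hc, hd, h1, h2, h3⟩ := ih p (q - p) hp (by omega) hco' (by omega)
          exact ⟨a, b + a, c, d + c, ha, by omega, hc, by omega, by nlinarith, h2, by omega⟩
        · subst h
          have h1 : IsUnit p := isCoprime_self.1 hco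
          have h2 : p = 1 := by
            rcases Int.isUnit_iff.1 h1 with h3 | h3 <;> omega
          subst h2
          exact ⟨1, 0, 0, 1, by norm_num, by norm_num, by norm_num, by norm_num, by norm_num,
            by norm_num, by norm_num⟩
        · have hco' : IsCoprime (p - q) q := by
            have := hco.add_mul_right_left (-1)
            simpa [sub_eq_add_neg] using this
          obtain ⟨a, b, c, d, ha, hb, hc, hd, h1, h2, h3⟩ := ih (p - q) q (by omega) hq hco' (by omega)
          exact ⟨a + b, b, c + d, d, by omega, hb, by omega, hd, by nlinarith, by omega, h3⟩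
    intro w hw1 hw2 hco
    obtain ⟨a, b, c, d, ha, hb, hc, hd, h1, h2, h3⟩ :=
      key (w.1 + w.2).toNat w.1 w.2 hw1 hw2 hco (by omega)
    refine ⟨(a, b), (c, d), ⟨⟨ha, hb⟩, ⟨hc, hd⟩, h1⟩, ?_⟩
    ext
    · simpa using h2
    · simpa using h3
  · rintro ⟨a, b⟩ ⟨c, d⟩ ⟨a', b'⟩ ⟨c', d'⟩ ⟨⟨h1, h2⟩, ⟨h3, h4⟩, h5⟩ ⟨⟨h1', h2'⟩, ⟨h3', h4'⟩, h5'⟩ hs
    simp only [det, Prod.mk_add_mk, Prod.mk.injEq] at *
    obtain ⟨hp, hq⟩ := hs
    have ha1 : 1 ≤ a := by
      by_contra hh
      have : a = 0 := by omega
      subst this
      nlinarith
    have ha1' : 1 ≤ a' := by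
      by_contra hh
      have : a' = 0 := by omega
      subst this
      nlinarith
    have e1 : a * (b + d) - b * (a + c) = 1 := by linarith
    have e2 : a' * (b + d) - b' * (a + c) = 1 := by
      rw [hp, hq]; linarith
    have hco : IsCoprime (a + c) (b + d) := ⟨-b, a, by linarith⟩
    have hdiv : (a + c) ∣ (a - a') := by
      have : (a + c) ∣ (b + d) * (a - a') := ⟨b - b', by linarith⟩
      exact hco.dvd_of_dvd_mul_left this
    obtain ⟨k, hk⟩ := hdiv
    have hk0 : k = 0 := by
      by_contra hh
      rcases lt_or_gt_of_ne hh with h | h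
      · have : (a + c) * k ≤ -(a + c) := by nlinarith
        omega
      · have : a + c ≤ (a + c) * k := by nlinarith
        omega
    subst hk0
    have haa : a = a' := by linarith
    have hbb : b = b' := by
      have : (a + c) * (b - b') = 0 := by
        subst haa; linarith
      rcases mul_eq_zero.1 this with h | h
      · omega
      · omega
    exact ⟨⟨haa, hbb⟩, by omega, by omega⟩

theorem t_VI : S_VI := by
  intro hTR m hm u v huv
  refine hTR (fun u v => 1 ≤ m u ∧ 1 ≤ m v ∧ m u < m (u + v) ∧ m v < m (u + v) ∧
    3 * m u * m v < 2 * m (u + v) ∧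
    m u ^ 2 + m v ^ 2 + m (u + v) ^ 2 = 3 * m u * m v * m (u + v)) ?_ ?_ u v huv
  · have e : ((1, 0) : ℤ × ℤ) + (0, 1) = (1, 1) := by simp
    simp only [e, hm.e1, hm.e2, hm.e12]
    norm_num
  · intro u v h ⟨h1, h2, h3, h4, h5, h6⟩
    have hl := hm.left u v h
    have hr := hm.right u v h
    constructor
    · generalize m (u + (u + v)) = Z at *
      generalize m (u + v) = z at *
      generalize m u = x at *
      generalize m v = y at *
      have hZ : Z = 3 * x * z - y := by linarith
      subst hZ
      have h7 : z ≤ x * z := by nlinarith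
      refine ⟨h1, by linarith, by nlinarith, by nlinarith, by nlinarith, by nlinarith⟩
    · generalize m ((u + v) + v) = Z at *
      generalize m (u + v) = z at *
      generalize m u = x at *
      generalize m v = y at *
      have hZ : Z = 3 * y * z - x := by linarith
      subst hZ
      have h7 : z ≤ y * z := by nlinarith
      refine ⟨by linarith, h2, by nlinarith, by nlinarith, by nlinarith, by nlinarith⟩

end Pool.Agent.Run7.h410.MK
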